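import Pool.Agent.Helper82_Vir.Vir

/-!
# Prescribed Q-curvature on `S^4`: Green operator, Moebius maps, Hoelder norms
-/

set_option autoImplicit false

open scoped InnerProductSpace Topology ContDiff Manifold
open MeasureTheory Filter Set

noncomputable section

namespace Pool.Agent.FLX

open Pool.Agent.Helper42_Paneitz Pool.Agent.Helper82_Vir

/-- the mean value -/
def avg (f : S4 → ℝ) : ℝ := (∫ y, f y ∂sig) / msig

/-- the `L²` norm -/
def N2 (f : S4 → ℝ) : ℝ := √(∫ y, f y ^ 2 ∂sig)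

/-- the logarithmic kernel `-log (1 - <x, y>)` -/
def ell (x y : S4) : ℝ := -Real.log (1 - ⟪(x : E5), (y : E5)⟫_ℝ)

/-- the Green operator of the Paneitz operator, applied to `f - avg f` -/
def K (f : S4 → ℝ) (x : S4) : ℝ := (∫ y, ell x y * (f y - avg f) ∂sig) / (6 * msig)

/-- `w` is a continuous solution of the integral form of `P w + 6 = Q e^{4w}` -/
def IE (Q w : S4 → ℝ) : Prop :=
  Continuous w ∧ avg (fun y => Q y * Real.exp (4 * w y)) = 6 ∧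
    ∃ c : ℝ, ∀ x, w x = K (fun y => Q y * Real.exp (4 * w y)) x + c

/-- functions of class `C^k` on the sphere -/
def CkS (k : ℕ) (u : S4 → ℝ) : Prop := ∀ y : E5, y ≠ 0 → ContDiffAt ℝ k (radialExt u) y

/-! ### Moebius maps -/

/-- `√(1 - |b|²)` -/
def sq (b : E5) : ℝ := √(1 - ‖b‖ ^ 2)

/-- the Moebius map with parameter `b`, `|b| < 1` -/
def mobE (b x : E5) : E5 :=
  (1 + ⟪b, x⟫_ℝ)⁻¹ • (sq b • x + (1 + ⟪b, x⟫_ℝ / (1 + sq b)) • b)

open Classical in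
/-- the same as a map of the sphere -/
def mob (b : E5) (x : S4) : S4 :=
  if h : ‖mobE b (x : E5)‖ = 1 then ⟨mobE b (x : E5), mem_sphere_zero_iff_norm.2 h⟩ else x

/-- its Jacobian -/
def Jac (b : E5) (x : S4) : ℝ := (1 - ‖b‖ ^ 2) ^ 2 / (1 + ⟪b, (x : E5)⟫_ℝ) ^ 4

/-- the bubble with a parameter in the ball -/
def bubv (a : E5) (y : S4) : ℝ := (1 - ‖a‖ ^ 2) ^ 2 / (1 - ⟪a, (y : E5)⟫_ℝ) ^ 4

/-! ### the nonlinearity -/

/-- `(6 + q) e^{4h} - 6 - 24 h` -/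
def Nn (q h : S4 → ℝ) (x : S4) : ℝ := (6 + q x) * Real.exp (4 * h x) - 6 - 24 * h x

/-- `24 K h` minus the projection to the first spherical harmonics -/
def Aop (h : S4 → ℝ) (x : S4) : ℝ :=
  24 * K h x - 5 / msig * ∫ y, ⟪(x : E5), (y : E5)⟫_ℝ * h y ∂sig

/-! ### bumps and Hoelder norms -/

/-- smooth even bump functions on the line with support in `[-2/5, 2/5]` -/
def Bump (β : ℝ → ℝ) : Prop :=
  ContDiff ℝ ∞ β ∧ (∀ t, β (-t) = β t) ∧ (∀ t, 0 ≤ β t) ∧ 0 < β 0 ∧ ∀ t, 2 / 5 ≤ |t| → β t = 0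

/-- the bump moved towards `p` by the Moebius map with parameter `s p` -/
def Fb (β : ℝ → ℝ) (p : S4) (s : ℝ) (z : S4) : ℝ :=
  β ((⟪(p : E5), (z : E5)⟫_ℝ - s) / (1 - s * ⟪(p : E5), (z : E5)⟫_ℝ))

/-- the `C^{1,α}` norm of `f` is at most `e` -/
def HC (α e : ℝ) (f : S4 → ℝ) : Prop :=
  ∀ (x y : S4) (v : E5), |f x| ≤ e ∧ |dd f x v| ≤ e * ‖v‖ ∧
    |dd f x v - dd f y v| ≤ e * ‖v‖ * dist x y ^ α

/-- critical points -/
def Crit (Q : S4 → ℝ) (p : S4) : Prop := ∀ v : E5, dd Q p v = 0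

end Pool.Agent.FLX
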