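import Pool.Agent.FLX.Defs

/-!
# Squad FLX: basic lemmas on `N2`, `avg`, `CkS`
-/

set_option autoImplicit false

open scoped InnerProductSpace Topology ContDiff Manifold
open MeasureTheory Filter Set

noncomputable section

namespace Pool.Agent.FLX

open Pool.Agent.Helper42_Paneitz Pool.Agent.Helper82_Vir

theorem N2_nonneg (f : S4 → ℝ) : 0 ≤ N2 f := Real.sqrt_nonneg _

theorem N2_sq (f : S4 → ℝ) : N2 f ^ 2 = ∫ y, f y ^ 2 ∂sig :=
  Real.sq_sqrt (integral_nonneg fun _ => sq_nonneg _)

theorem msig_ne : msig ≠ 0 := msig_pos.ne'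

/-- Cauchy-Schwarz -/
theorem abs_integral_mul_le {f g : S4 → ℝ} (hf : Continuous f) (hg : Continuous g) :
    |∫ y, f y * g y ∂sig| ≤ N2 f * N2 g := by
  have hff := integrable_cont (hf.fun_mul hf)
  have hgg := integrable_cont (hg.fun_mul hg)
  have hfg := integrable_cont (hf.fun_mul hg)
  have key : ∀ t : ℝ, 0 ≤ (∫ y, g y * g y ∂sig) * (t * t) + (2 * ∫ y, f y * g y ∂sig) * t +
      ∫ y, f y * f y ∂sig := by
    intro t
    have h1 : 0 ≤ ∫ y, (f y + t * g y) ^ 2 ∂sig := integral_nonneg fun _ => sq_nonneg _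
    have h2 : ∫ y, (f y + t * g y) ^ 2 ∂sig =
        (∫ y, g y * g y ∂sig) * (t * t) + (2 * ∫ y, f y * g y ∂sig) * t +
        ∫ y, f y * f y ∂sig := by
      have e : (fun y => (f y + t * g y) ^ 2) = fun y =>
          ((t * t) * (g y * g y) + (2 * t) * (f y * g y)) + f y * f y := by
        funext y; ring
      have i1 : Integrable (fun y => (t * t) * (g y * g y)) sig := hgg.const_mul _
      have i2 : Integrable (fun y => (2 * t) * (f y * g y)) sig := hfg.const_mul _
      have i3 : Integrable (fun y => (t * t) * (g y * g y) + (2 * t) * (f y * g y)) sig := i1.add i2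
      rw [e, integral_add i3 hff, integral_add i1 i2, integral_const_mul, integral_const_mul]
      ring
    rw [h2] at h1
    exact h1
  have hd := discrim_le_zero key
  unfold discrim at hd
  have h3 : (∫ y, f y * g y ∂sig) ^ 2 ≤ (N2 f * N2 g) ^ 2 := by
    rw [mul_pow, N2_sq, N2_sq]
    have e1 : ∫ y, f y ^ 2 ∂sig = ∫ y, f y * f y ∂sig :=
      integral_congr_ae (Eventually.of_forall fun y => by ring)
    have e2 : ∫ y, g y ^ 2 ∂sig = ∫ y, g y * g y ∂sig :=
      integral_congr_ae (Eventually.of_forall fun y => by ring)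
    rw [e1, e2]
    nlinarith
  exact abs_le_of_sq_le_sq h3 (mul_nonneg (N2_nonneg f) (N2_nonneg g))

/-- Minkowski -/
theorem N2_add_le {f g : S4 → ℝ} (hf : Continuous f) (hg : Continuous g) :
    N2 (fun x => f x + g x) ≤ N2 f + N2 g := by
  apply Real.sqrt_le_iff.2
  refine ⟨add_nonneg (N2_nonneg f) (N2_nonneg g), ?_⟩
  have hff := integrable_cont (hf.fun_pow 2)
  have hgg := integrable_cont (hg.fun_pow 2)
  have hfg := integrable_cont (hf.fun_mul hg)
  have e : (fun y => (f y + g y) ^ 2) = fun y => (f y ^ 2 + g y ^ 2) + 2 * (f y * g y) := by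
    funext y; ring
  have i3 : Integrable (fun y => f y ^ 2 + g y ^ 2) sig := hff.add hgg
  have i4 : Integrable (fun y => 2 * (f y * g y)) sig := hfg.const_mul _
  rw [e, integral_add i3 i4, integral_add hff hgg, integral_const_mul, ← N2_sq, ← N2_sq]
  have h := (le_abs_self _).trans (abs_integral_mul_le hf hg)
  nlinarith

theorem N2_mono {f g : S4 → ℝ} (hf : Continuous f) (hg : Continuous g) (h : ∀ x, |f x| ≤ |g x|) :
    N2 f ≤ N2 g := by
  unfold N2
  apply Real.sqrt_le_sqrt
  refine integral_mono (integrable_cont (hf.fun_pow 2)) (integrable_cont (hg.fun_pow 2)) fun x => ?_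
  exact sq_le_sq.2 (h x)

theorem N2_const_mul (c : ℝ) (f : S4 → ℝ) : N2 (fun x => c * f x) = |c| * N2 f := by
  unfold N2
  have e : (fun y => (c * f y) ^ 2) = fun y => c ^ 2 * f y ^ 2 := by funext y; ring
  rw [e, integral_const_mul, Real.sqrt_mul (sq_nonneg c), Real.sqrt_sq_eq_abs]

theorem N2_neg (f : S4 → ℝ) : N2 (fun x => - f x) = N2 f := by
  unfold N2
  simp

theorem N2_sub_le {f g : S4 → ℝ} (hf : Continuous f) (hg : Continuous g) :
    N2 (fun x => f x - g x) ≤ N2 f + N2 g := by
  have h := N2_add_le hf hg.fun_neg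
  rw [N2_neg] at h
  simpa [sub_eq_add_neg] using h

theorem N2_const (c : ℝ) : N2 (fun _ => c) = √msig * |c| := by
  unfold N2
  rw [integral_const_sig, Real.sqrt_mul msig_pos.le, Real.sqrt_sq_eq_abs]

theorem N2_le_of_bound {f : S4 → ℝ} {B : ℝ} (hf : Continuous f) (h : ∀ x, |f x| ≤ B) :
    N2 f ≤ √msig * B := by
  have hB : 0 ≤ B := (abs_nonneg _).trans (h ⟨EuclideanSpace.basisFun (Fin 5) ℝ 0, by
    rw [mem_sphere_zero_iff_norm]; exact norm_ee 0⟩)
  refine (N2_mono hf (continuous_const (y := B)) fun x => ?_).trans (le_of_eq ?_)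
  · rw [abs_of_nonneg hB]; exact h x
  · rw [N2_const, abs_of_nonneg hB]

/-- multiplication by a bounded function -/
theorem N2_mul_le {f g : S4 → ℝ} {B : ℝ} (hf : Continuous f) (hg : Continuous g)
    (h : ∀ x, |g x| ≤ B) : N2 (fun x => f x * g x) ≤ B * N2 f := by
  have hB : 0 ≤ B := (abs_nonneg _).trans (h ⟨EuclideanSpace.basisFun (Fin 5) ℝ 0, by
    rw [mem_sphere_zero_iff_norm]; exact norm_ee 0⟩)
  refine (N2_mono (hf.fun_mul hg) (continuous_const.fun_mul hf) (g := fun x => B * f x)
    fun x => ?_).trans (le_of_eq ?_)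
  · rw [abs_mul, abs_mul, abs_of_nonneg hB, mul_comm]
    exact mul_le_mul_of_nonneg_right (h x) (abs_nonneg _)
  · have := N2_const_mul B f
    rw [abs_of_nonneg hB] at this
    exact this

theorem abs_integral_le {f : S4 → ℝ} (hf : Continuous f) : |∫ y, f y ∂sig| ≤ √msig * N2 f := by
  have h := abs_integral_mul_le hf (continuous_const (y := (1 : ℝ)))
  rw [N2_const, abs_one, mul_one] at h
  simp only [mul_one] at h
  rw [mul_comm]
  exact h

theorem abs_avg_le {f : S4 → ℝ} (hf : Continuous f) : |avg f| ≤ N2 f / √msig := by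
  have hm := msig_pos
  have hs : 0 < √msig := Real.sqrt_pos.2 hm
  unfold avg
  rw [abs_div, abs_of_pos hm, div_le_div_iff₀ hm hs]
  have h := abs_integral_le hf
  have h2 : √msig * √msig = msig := Real.mul_self_sqrt hm.le
  calc |∫ y, f y ∂sig| * √msig ≤ (√msig * N2 f) * √msig := by gcongr
    _ = N2 f * (√msig * √msig) := by ring
    _ = N2 f * msig := by rw [h2]

theorem avg_const (c : ℝ) : avg (fun _ => c) = c := by
  unfold avg
  rw [integral_const_sig, mul_div_assoc, mul_comm, div_mul_cancel₀ _ msig_ne]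

theorem avg_add {f g : S4 → ℝ} (hf : Continuous f) (hg : Continuous g) :
    avg (fun x => f x + g x) = avg f + avg g := by
  unfold avg
  rw [integral_add (integrable_cont hf) (integrable_cont hg), add_div]

theorem avg_sub {f g : S4 → ℝ} (hf : Continuous f) (hg : Continuous g) :
    avg (fun x => f x - g x) = avg f - avg g := by
  unfold avg
  rw [integral_sub (integrable_cont hf) (integrable_cont hg), sub_div]

theorem avg_const_mul (c : ℝ) (f : S4 → ℝ) : avg (fun x => c * f x) = c * avg f := by
  unfold avg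
  rw [integral_const_mul, mul_div_assoc]

/-- `K` of a constant -/
theorem K_const (c : ℝ) (x : S4) : K (fun _ => c) x = 0 := by
  unfold K
  rw [avg_const]
  simp

theorem K_const_mul (c : ℝ) (f : S4 → ℝ) (x : S4) : K (fun y => c * f y) x = c * K f x := by
  unfold K
  rw [avg_const_mul]
  have e : (fun y => ell x y * (c * f y - c * avg f)) = fun y => c * (ell x y * (f y - avg f)) := by
    funext y; ring
  rw [e, integral_const_mul, mul_div_assoc]

theorem integrable_ell_mul {x : S4} (h : Integrable (ell x) sig) {f : S4 → ℝ}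
    (hf : Continuous f) : Integrable (fun y => ell x y * f y) sig := by
  obtain ⟨C, hC0, hC⟩ := exists_bound hf
  exact h.mul_bdd (c := C) hf.aestronglyMeasurable (Eventually.of_forall fun y => by
    rw [Real.norm_eq_abs]; exact hC y)

/-- additivity of `K` (with the integrability of the kernel) -/
theorem K_add (h : ∀ x, Integrable (ell x) sig) {f g : S4 → ℝ} (hf : Continuous f)
    (hg : Continuous g) (x : S4) : K (fun y => f y + g y) x = K f x + K g x := by
  unfold K
  rw [avg_add hf hg]
  have e : (fun y => ell x y * (f y + g y - (avg f + avg g))) = fun y =>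
      ell x y * (f y - avg f) + ell x y * (g y - avg g) := by
    funext y; ring
  have i1 : Integrable (fun y => ell x y * (f y - avg f)) sig :=
    integrable_ell_mul (h x) (hf.fun_sub continuous_const)
  have i2 : Integrable (fun y => ell x y * (g y - avg g)) sig :=
    integrable_ell_mul (h x) (hg.fun_sub continuous_const)
  rw [e, integral_add i1 i2, add_div]

theorem K_sub (h : ∀ x, Integrable (ell x) sig) {f g : S4 → ℝ} (hf : Continuous f)
    (hg : Continuous g) (x : S4) : K (fun y => f y - g y) x = K f x - K g x := by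
  unfold K
  rw [avg_sub hf hg]
  have e : (fun y => ell x y * (f y - g y - (avg f - avg g))) = fun y =>
      ell x y * (f y - avg f) - ell x y * (g y - avg g) := by
    funext y; ring
  have i1 : Integrable (fun y => ell x y * (f y - avg f)) sig :=
    integrable_ell_mul (h x) (hf.fun_sub continuous_const)
  have i2 : Integrable (fun y => ell x y * (g y - avg g)) sig :=
    integrable_ell_mul (h x) (hg.fun_sub continuous_const)
  rw [e, integral_sub i1 i2, sub_div]

theorem Aop_const_mul (c : ℝ) (f : S4 → ℝ) (x : S4) : Aop (fun y => c * f y) x = c * Aop f x := by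
  unfold Aop
  rw [K_const_mul]
  have e : (fun y : S4 => ⟪(x : E5), (y : E5)⟫_ℝ * (c * f y)) = fun y : S4 =>
      c * (⟪(x : E5), (y : E5)⟫_ℝ * f y) := by
    funext y; ring
  rw [e, integral_const_mul]
  ring

theorem Aop_sub (h : ∀ x, Integrable (ell x) sig) {f g : S4 → ℝ} (hf : Continuous f)
    (hg : Continuous g) (x : S4) : Aop (fun y => f y - g y) x = Aop f x - Aop g x := by
  unfold Aop
  rw [K_sub h hf hg]
  have hx : Continuous fun y : S4 => ⟪(x : E5), (y : E5)⟫_ℝ :=
    continuous_const.inner continuous_subtype_val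
  have e : (fun y : S4 => ⟪(x : E5), (y : E5)⟫_ℝ * (f y - g y)) = fun y : S4 =>
      ⟪(x : E5), (y : E5)⟫_ℝ * f y - ⟪(x : E5), (y : E5)⟫_ℝ * g y := by
    funext y; ring
  rw [e, integral_sub (integrable_cont (hx.fun_mul hf)) (integrable_cont (hx.fun_mul hg))]
  ring

theorem cks_of_sm {u : S4 → ℝ} (hu : Sm u) (k : ℕ) : CkS k u := fun y hy =>
  (hu y hy).of_le (by exact_mod_cast le_top)

theorem sm_of_cks {u : S4 → ℝ} (hu : ∀ k, CkS k u) : Sm u := fun y hy =>
  contDiffAt_infty.2 fun k => hu k y hy

theorem continuous_of_cks {k : ℕ} {u : S4 → ℝ} (hu : CkS k u) : Continuous u := by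
  have h : u = fun x : S4 => radialExt u (x : E5) := by
    funext x; exact (radialExt_coe u x).symm
  rw [h, continuous_iff_continuousAt]
  intro x
  exact ((hu x (S4_ne_zero x)).continuousAt).comp continuous_subtype_val.continuousAt

theorem cks_zero_of_continuous {u : S4 → ℝ} (hu : Continuous u) : CkS 0 u := by
  intro y hy
  have hc : ContinuousOn (radialExt u) {z : E5 | z ≠ 0} := by
    have e : ∀ z : {z : E5 | z ≠ 0}, radialExt u (z : E5) =
        u ⟨‖(z : E5)‖⁻¹ • (z : E5), normalize_mem z.2⟩ := fun z => radialExt_apply u z.2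
    rw [continuousOn_iff_continuous_domRestrict]
    have e2 : ({z : E5 | z ≠ 0}.domRestrict (radialExt u)) =
        fun z : {z : E5 | z ≠ 0} => u ⟨‖(z : E5)‖⁻¹ • (z : E5), normalize_mem z.2⟩ := by
      funext z; exact e z
    rw [e2]
    refine hu.comp (Continuous.subtype_mk ?_ _)
    have h1 : Continuous fun z : {z : E5 | z ≠ 0} => ‖(z : E5)‖⁻¹ :=
      (continuous_norm.comp continuous_subtype_val).inv₀ fun z => norm_ne_zero_iff.2 z.2
    exact h1.smul continuous_subtype_val
  have h0 : ((0 : ℕ) : WithTop ℕ∞) = 0 := rfl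
  rw [h0, contDiffAt_zero]
  exact ⟨{z : E5 | z ≠ 0}, isOpen_compl_singleton.mem_nhds hy, hc⟩

end Pool.Agent.FLX
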