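import Pool.Agent.FLX.Defs

/-!
# Squad FLX (MP_5f32e0_gt): generic answer and sharp threshold, the statements

The proof of each row is in its docstring. `s = <x, y>` always; `|x - y|² = 2 (1 - s)`.
-/

set_option autoImplicit false

open scoped InnerProductSpace Topology ContDiff Manifold
open MeasureTheory Filter Set

noncomputable section

namespace Pool.Agent.FLX

open Pool.Agent.Helper42_Paneitz Pool.Agent.Helper82_Vir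

/-! ### A. the kernel -/

/-- VOL. Caps have volume `O(δ²)`, `δ = 1 - s`. Proof: `integral_bub` with `r = 1 - δ` for
`δ < 1` (`δ = 1`: trivial with a large constant): on the cap `1 - r s ≤ (1 - s) + (1 - r) ≤ 2 δ`, so
`bub r x y ≥ (1 - r²)² / (2 δ)⁴ ≥ δ² / (16 δ⁴)`; Chebyshev. -/
def VolStmt : Prop :=
  ∃ C : ℝ, 0 ≤ C ∧ ∀ (x : S4) (δ : ℝ), 0 < δ → δ ≤ 1 →
    sig {y : S4 | 1 - ⟪(x : E5), (y : E5)⟫_ℝ ≤ δ} ≤ ENNReal.ofReal (C * δ ^ 2)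

/-- POW. Uses VOL. Layer cake (or dyadic shells `2^(-k-1) < 1 - s ≤ 2^(-k)`): the integral of
`(1 - s)^(-a)` is at most `C ∑ 2^((a - 2) k)` for `0 < a < 2`; for `a ≤ 0` it is bounded by
`2 ^ (-a) msig`. -/
def PowStmt : Prop :=
  ∀ a : ℝ, a < 2 → ∃ C : ℝ, 0 ≤ C ∧ ∀ x : S4,
    Integrable (fun y : S4 => (1 - ⟪(x : E5), (y : E5)⟫_ℝ) ^ (-a)) sig ∧
    ∫ y : S4, (1 - ⟪(x : E5), (y : E5)⟫_ℝ) ^ (-a) ∂sig ≤ C

/-- KER. Uses POW. `log² (1 - s) ≤ 16 (1 - s)^(-1/2) + 1` or so on `(0, 2]`; Cauchy-Schwarz;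
`N2 (f - avg f) ≤ N2 f`. -/
def KerStmt : Prop :=
  (∀ x, Integrable (ell x) sig) ∧ (∀ x, Integrable (fun y => ell x y ^ 2) sig) ∧
  ∃ C : ℝ, 0 ≤ C ∧ (∀ x, ∫ y, |ell x y| ∂sig ≤ C) ∧
    ∀ f : S4 → ℝ, Continuous f → ∀ x, |K f x| ≤ C * N2 f

/-- REA. Uses POW, KER. The functions `K_r f (x) = (1/(6 msig)) ∫ zlog (r x) y (f y - avg f)`,
`r < 1`, are smooth (differentiation under the integral sign; the kernel is a smooth function of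
`(x, y)`), and `dd (K_r f) x (Jf p q x) = (1/(6 msig)) ∫ r <Jf p q x, y> / (1 - r s) (f y - avg f)`.
As `r → 1` both converge uniformly in `x`: `|zlog (r x) y - ell x y| ≤ (1 - r) / (1 - r s)` if
`s ≤ 0`, and in general `∫ |zlog (r x) y - ell x y| dy → 0` uniformly in `x` (use
`log (1 + t) ≤ 2 √t` with `t = (1 - r) s / (1 - s)`); `|<Jf p q x, y>| = |<Jf p q x, y - x>| ≤
2 |y - x|` and `|r / (1 - r s) - 1 / (1 - s)| = (1 - r) / ((1 - r s)(1 - s)) ≤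
(1 - r)^(1/4) (1 - s)^(-1-1/4)` (because `1 - r s ≥ max (1 - r) (1 - s)` up to a factor 2).
All `dd (K_r f) x (ee i) = ∑_j x_j dd (K_r f) x (Jf (ee j) (ee i) x)` converge uniformly, so the
radial extensions converge in `C¹` locally uniformly on `ℝ⁵ \ 0`
(`hasFDerivAt_of_tendstoLocallyUniformlyOn`). -/
def ReaStmt : Prop := ∀ f : S4 → ℝ, Continuous f → CkS 1 (K f)

/-- REB. Uses KER, REA. `K f (act R x) = K (f ∘ act R) x` for each linear isometry `R`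
(`measurePreserving_act`); take `R = rotE hp hq hpq t` and the derivative at `t = 0` of both
sides: on the left `hasDerivAt_along`-type chain rule, on the right `hasDerivAt_integral_of_
dominated_loc_of_deriv_le`; the average of `dd f y (Jf p q y)` is `0` because
`∫ f (act R y) dy` is constant. -/
def RebStmt : Prop :=
  ∀ f : S4 → ℝ, CkS 1 f → ∀ p q : E5, ‖p‖ = 1 → ‖q‖ = 1 → ⟪p, q⟫_ℝ = 0 → ∀ x : S4,
    dd (K f) x (Jf p q (x : E5)) = K (fun y => dd f y (Jf p q (y : E5))) x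

/-- REC. Uses REA, REB. Induction on `k`. For `u` of class `C¹`:
`dd u x (ee i) = ∑_j x_j dd u x (Jf (ee j) (ee i) x)` (because `dd u x x = 0`), and `u` is of class
`C^(k+1)` if all `x ↦ dd u x (ee i)` are of class `C^k` (the derivative of the radial extension at
`y` in the direction `v` is `|y|⁻¹ radialExt (dd u · v) y`). -/
def RecStmt : Prop := ∀ (k : ℕ) (f : S4 → ℝ), CkS k f → CkS (k + 1) (K f)

/-- REG. Uses REC. Bootstrap. -/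
def RegStmt : Prop :=
  ∀ (Q w : S4 → ℝ) (c : ℝ), Sm Q → Continuous w →
    (∀ x, w x = K (fun y => Q y * Real.exp (4 * w y)) x + c) → Sm w

/-- SYM. Uses KER, REA (continuity of `K f`). Fubini; `∫ ell x y dx` does not depend on `y`
(rotations). -/
def SymStmt : Prop :=
  ∀ f g : S4 → ℝ, Continuous f → Continuous g →
    ∫ y, K f y * g y ∂sig = ∫ y, f y * K g y ∂sig ∧ ∫ y, K f y ∂sig = 0

/-- REP. Uses KER. Let `r → 1` in `integral_zlog` (dominated convergence: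
`|zlog (r x) y| ≤ |ell x y| + 1` or so; `tendsto_bub` on the right side). -/
def RepStmt : Prop := ∀ u : S4 → ℝ, Sm u → ∀ x, K (paneitz u) x = u x - avg u

/-- SLV. Uses REC, SYM, REP. `u = K f` is smooth; for each smooth `h`, `∫ h (P u) = ∫ u (P h) =
∫ f K (P h) = ∫ f (h - avg h)`; take `h = P u - f + avg f`. -/
def SlvStmt : Prop := ∀ f : S4 → ℝ, Sm f → ∀ x, paneitz (K f) x = f x - avg f

/-- FIN. Uses REG, SLV. (`contMDiff_of_sm`.) -/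
def FinStmt : Prop := ∀ Q w : S4 → ℝ, Sm Q → IE Q w → IsPaneitzCurvature Q

/-- XIS. Uses SYM, REP. `x_i` satisfies `P x_i = 24 x_i`; `∫ y_i y_j` by reflections and rotations
(or from `integral_dv`). -/
def XisStmt : Prop :=
  (∀ f : S4 → ℝ, Continuous f → ∀ v : E5,
    ∫ y, K f y * ⟪v, (y : E5)⟫_ℝ ∂sig = (∫ y, f y * ⟪v, (y : E5)⟫_ℝ ∂sig) / 24) ∧
  (∀ v w : E5, ∫ y : S4, ⟪v, (y : E5)⟫_ℝ * ⟪w, (y : E5)⟫_ℝ ∂sig = msig / 5 * ⟪v, w⟫_ℝ) ∧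
  ∀ v : E5, ∫ y : S4, ⟪v, (y : E5)⟫_ℝ ∂sig = 0

/-- NRM (helper88). The kernel of `Aop` is `(4 / msig) (ell - avg ell - (5/4) s)`, its `L²` norm
squared is `(16 / msig) (7 / 144)`, so the `L¹` norm is at most `√7 / 3 < 9 / 10`. -/
def NrmStmt : Prop :=
  ∀ (h : S4 → ℝ) (B : ℝ), Continuous h → (∀ y, |h y| ≤ B) → ∀ x, |Aop h x| ≤ 9 / 10 * B

/-! ### B. Moebius maps -/

/-- MOA. Algebra. With `s = sq b`, `t = <b, x>`: `|s x + (1 + t / (1 + s)) b|² = (1 + t)²`. For the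
bubbles `a' = (s a - (1 - <a, b> / (1 + s)) b) / (1 - <a, b>)`. -/
def MoaStmt : Prop :=
  ∀ b : E5, ‖b‖ < 1 →
    (∀ x : S4, 0 < 1 + ⟪b, (x : E5)⟫_ℝ) ∧
    (∀ x : S4, (mob b x : E5) = mobE b (x : E5)) ∧
    (∀ x y : S4, 1 - ⟪(mob b x : E5), (mob b y : E5)⟫_ℝ =
      (1 - ‖b‖ ^ 2) * (1 - ⟪(x : E5), (y : E5)⟫_ℝ) /
        ((1 + ⟪b, (x : E5)⟫_ℝ) * (1 + ⟪b, (y : E5)⟫_ℝ))) ∧
    (∀ x : S4, mob (-b) (mob b x) = x) ∧
    (∀ x : S4, (1 - ⟪b, (mob b x : E5)⟫_ℝ) * (1 + ⟪b, (x : E5)⟫_ℝ) = 1 - ‖b‖ ^ 2) ∧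
    (∀ a : E5, ‖a‖ < 1 → ∃ a' : E5, ‖a'‖ < 1 ∧ ∀ y : S4, bubv a (mob b y) * Jac b y = bubv a' y)

/-- MOS. Uses MOA. Smoothness and joint continuity. -/
def MosStmt : Prop :=
  ContinuousOn (fun z : E5 × S4 => mob z.1 z.2) {z | ‖z.1‖ < 1} ∧
  ∀ b : E5, ‖b‖ < 1 → ∀ Q : S4 → ℝ, Sm Q → Sm (fun x => Q (mob b x))

/-- MOM. Uses MOA, MOS. Change of variables. For continuous `f`: `f_r z = (1/msig) ∫ bub r x z
f x dx` tends to `f z` (`tendsto_bub`), `|f_r| ≤ sup |f|`, and by Fubini, MOA and `integral_bub`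
(for all parameters in the ball, also `0`) `∫ f_r (mob b y) Jac b y = ∫ f`. So the measures
`map (mob b) (sig.withDensity (Jac b))` and `sig` agree (finite measures on a compact metric space
with the same integrals of continuous functions), and `mob b` is a homeomorphism. -/
def MomStmt : Prop :=
  ∀ b : E5, ‖b‖ < 1 → ∀ f : S4 → ℝ, ∫ y, f (mob b y) * Jac b y ∂sig = ∫ y, f y ∂sig

/-- MOI. Uses MOA, MOS, MOM, KER. Let `h` solve (IE) for `Q ∘ mob b` and put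
`w (mob b x) = h x - log (Jac b x) / 4`, i.e. `w z = h (mob (-b) z) - log (Jac b (mob (-b) z)) / 4`.
With `f = (Q ∘ mob b) e^{4h}`, `g = Q e^{4w}` we have `g (mob b y) Jac b y = f y`, and
`ell (mob b x) (mob b y) = ell x y - log (1 - |b|²) + log (1 + <b,x>) + log (1 + <b,y>)`,
`∫ f = ∫ g = 6 msig`. -/
def MoiStmt : Prop :=
  ∀ (b : E5) (Q h : S4 → ℝ), ‖b‖ < 1 → Continuous Q → IE (fun x => Q (mob b x)) h →
    ∃ w : S4 → ℝ, IE Q w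

/-- L2B. Uses MOA, MOS, MOM. `∫ q (mob b x)² dx = ∫ q z² Jac (-b) z dz` and
`Jac (-b) ≤ (1 + |b|)² / (1 - |b|)²`. -/
def L2bStmt : Prop :=
  ∀ (b : E5) (q : S4 → ℝ), ‖b‖ < 1 → Continuous q →
    N2 (fun x => q (mob b x)) ≤ (1 + ‖b‖) / (1 - ‖b‖) * N2 q

/-- EXP. Uses MOA, MOS, MOM. By MOM for `-b` the integral is `∫ g(y) mob (-b) y Jac (-b) y dy` with
`g y = β <p, y>`, and `mob (-b) y Jac (-b) y = y + 5 <b, y> y - b + O(|b|²)` uniformly in `y`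
(`y ≠` anything). `∫ g y = 0` (evenness), `5 ∫ g(y) (<b, y> y - b / 5) dy` is diagonal:
`-κ` on `p` and `κ / 4` on the orthogonal complement of `p`, with
`κ = 5 ∫ g (1/5 - <p, y>²) > 0` because `|<p, y>| < 2/5` on the support (reflections in `p` and in
unit vectors orthogonal to `p`, and rotations around `p`, via `integral_act`). -/
def ExpStmt : Prop :=
  ∀ (p : S4) (β : ℝ → ℝ), Bump β → ∃ κ : ℝ, 0 < κ ∧ ∀ η : ℝ, 0 < η → ∃ ρ : ℝ, 0 < ρ ∧ ρ ≤ 1 / 2 ∧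
    ∀ b : E5, ‖b‖ ≤ ρ →
      ‖(∫ y : S4, β ⟪(p : E5), (mob b y : E5)⟫_ℝ • (y : E5) ∂sig) -
        (-(κ * ⟪(p : E5), b⟫_ℝ) • (p : E5) +
          (κ / 4) • (b - ⟪(p : E5), b⟫_ℝ • (p : E5)))‖ ≤ η * ‖b‖

/-! ### C. the fixed point -/

/-- NLE. `|e^t - 1| ≤ 3 |t|`, `|e^t - 1 - t| ≤ 2 t²` for `|t| ≤ 1`; `Nn q h = q + q (e^{4h} - 1) +
6 (e^{4h} - 1 - 4 h)`, `Nn q h - Nn q h' = q (e^{4h} - e^{4h'}) + 6 (e^{4h} - e^{4h'} - 4 (h - h'))`;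
Minkowski / Cauchy-Schwarz. -/
def NleStmt : Prop :=
  ∃ C : ℝ, 0 ≤ C ∧ ∀ (q h h' : S4 → ℝ) (R D : ℝ), Continuous q → Continuous h → Continuous h' →
    0 ≤ R → R ≤ 1 / 4 → (∀ x, |h x| ≤ R) → (∀ x, |h' x| ≤ R) → (∀ x, |h x - h' x| ≤ D) →
    N2 (Nn q h) ≤ C * (N2 q + R ^ 2) ∧
    N2 (fun x => Nn q h x - Nn q h' x) ≤ C * (N2 q + R) * D ∧
    ‖(∫ y : S4, Nn q h y • (y : E5) ∂sig) - ∫ y : S4, q y • (y : E5) ∂sig‖ ≤
      C * (R * N2 q + R ^ 2)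

/-- FIX. Uses KER, REA (continuity of `K f`), NRM, NLE. For each `b ∈ S` the right side is a
contraction (factor `9/10 + C (τ + R) ≤ 19/20`) of the ball of radius `R = C' τ` of `C(S⁴)`;
the fixed point depends continuously on `b` because
`N2 ((q b - q b') e^{4h}) → 0` as `b' → b` uniformly (compactness of `S4`). (`|avg f| ≤ N2 f /
√msig`.) -/
def FixStmt : Prop :=
  ∃ τ₀ C : ℝ, 0 < τ₀ ∧ 0 < C ∧ ∀ (S : Set E5) (q : E5 → S4 → ℝ) (τ : ℝ),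
    ContinuousOn (fun z : E5 × S4 => q z.1 z.2) (S ×ˢ (univ : Set S4)) →
    0 ≤ τ → τ ≤ τ₀ → (∀ b ∈ S, N2 (q b) ≤ τ) →
    ∃ H : E5 → S4 → ℝ, ContinuousOn (fun z : E5 × S4 => H z.1 z.2) (S ×ˢ (univ : Set S4)) ∧
      (∀ b ∈ S, Continuous (H b)) ∧ (∀ b ∈ S, ∀ x, |H b x| ≤ C * τ) ∧
      ∀ b ∈ S, ∀ x, H b x = Aop (H b) x + K (Nn (q b) (H b)) x - avg (Nn (q b) (H b)) / 24

/-- COR. Uses FIX, XIS, SYM, EXP, L2B, MOS, MOI, NLE and the Brouwer theorem (`Common_Brouwer`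
`schauder` in `E5`). On the closed ball `S` of radius `ρ ≤ 1/2` let `q b = q ∘ mob b`,
`τ = C e`, `H` from FIX, `B(b) = ∫ Nn (q b) (H b) y • y` (continuous). By NLE, L2B, EXP
`|B(b)/e - M b| ≤ η ρ + C c0 + C e`, `M b = -κ <p,b> p + (κ/4)(b - <p,b> p)`. The map
`b ↦ b - M⁻¹ (B(b)/e)` maps `S` to itself if `η`, then `c0`, `e0` are small, so `B(b) = 0` for some
`b`. Projecting the equation of `h = H b` to `x_i` (XIS): `<h, x_i> = 0`; averaging: `24 avg h +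
avg N = 0`. So `h = K (24 h + N) + avg h`, `24 h + N = (6 + q b) e^{4h} - 6`, and `h` solves (IE)
for `(6 + q) ∘ mob b`; MOI. -/
def CorStmt : Prop :=
  ∀ (p : S4) (β : ℝ → ℝ), Bump β → ∃ e₀ c₀ : ℝ, 0 < e₀ ∧ 0 < c₀ ∧ ∀ (e : ℝ) (q : S4 → ℝ), 0 < e →
    e ≤ e₀ → Continuous q → N2 (fun x => q x - e * β ⟪(p : E5), (x : E5)⟫_ℝ) ≤ c₀ * e →
    ∃ w : S4 → ℝ, IE (fun x => 6 + q x) w

/-! ### D. zoom -/

/-- TAY. Along the great circle `c` from `p` to `z` (length `ℓ`, `ℓ² ≤ (π²/2)(1 - s)`) the second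
derivative of `Q ∘ c` is bounded (compactness) and the first derivative at `p` is `0`. -/
def TayStmt : Prop :=
  ∀ (Q : S4 → ℝ) (p : S4), Sm Q → Crit Q p → ∃ C : ℝ, 0 ≤ C ∧
    ∀ z : S4, |Q z - Q p| ≤ C * (1 - ⟪(p : E5), (z : E5)⟫_ℝ)

/-- ZOM. Uses TAY, POW, MOA. `1 - <p, mob (λ p) x> = (1 - λ)(1 - s)/(1 + λ s)`, `s = <p, x>`; its
square is at most `4 (1 - λ)^(2 - 2η) (1 + λ s)^(-(2 - 2η))` (as `(1 - λ)/(1 + λ s) ≤ 1`), and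
`1 + λ s ≥ (1 + s)/2` for `λ ≥ 1/2`: POW at `-p`, `a = 2 - 2η`. For `λ ≤ 1/2` trivial. -/
def ZomStmt : Prop :=
  ∀ (Q : S4 → ℝ) (p : S4) (η : ℝ), Sm Q → Crit Q p → 0 < η → η < 1 → ∃ C : ℝ, 0 ≤ C ∧
    ∀ s : ℝ, 0 < s → s < 1 →
      N2 (fun x => Q (mob (s • (p : E5)) x) - Q p) ≤ C * (1 - s) ^ (1 - η)

/-- DER. `Fb = F(t)`, `t = <p, z>`, `F(t) = β(ρ)`, `ρ = (t - s)/(1 - s t)`. `dd` of a function of
`t`: `F'(t) <p, v - <z, v> z>`, with `|<p, v - <z,v> z>| ≤ √(1 - t²) |v|`; second: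
`F''(t) P_v P_w + F'(t) dd P_v`, `dd P_v z w = -(P_w <z, v> + t <v, w - <z, w> z>)` bounded by
`2 |v| |w|`. On the support `|ρ| ≤ 2/5`: `1 - s t = (1 - s²)/(1 + s ρ) ∈ [(1-s²)/2, 2(1-s²)]`,
`1 - t² = (1 - ρ²)(1 - s t)²/(1 - s²) ≤ 4 (1 - s²)`, `ρ'(t) = (1 - s²)/(1 - s t)² ≤ 4/(1 - s²)`,
`|ρ''(t)| ≤ 16/(1 - s²)²`. -/
def DerStmt : Prop :=
  ∀ (p : S4) (β : ℝ → ℝ), Bump β → ∃ C : ℝ, 0 ≤ C ∧ ∀ s : ℝ, 0 ≤ s → s < 1 →
    Sm (Fb β p s) ∧ ∀ (x : S4) (v w : E5), |Fb β p s x| ≤ C ∧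
      |dd (Fb β p s) x v| ≤ C * (1 - s) ^ (-(1 / 2) : ℝ) * ‖v‖ ∧
      |dd (fun z => dd (Fb β p s) z v) x w| ≤ C * (1 - s)⁻¹ * ‖v‖ * ‖w‖

/-- LIP. Along the great circle from `x` to `y` of length `ℓ ≤ (π/2) |x - y|` (antipodal points:
any great circle). -/
def LipStmt : Prop :=
  ∀ (F : S4 → ℝ) (B : ℝ), Sm F → 0 ≤ B →
    (∀ (x : S4) (v w : E5), |dd (fun z => dd F z v) x w| ≤ B * ‖v‖ * ‖w‖) →
    ∀ (x y : S4) (v : E5), |dd F x v - dd F y v| ≤ 2 * B * ‖v‖ * dist x y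

/-- HOL. Uses DER, LIP. Interpolation: `min (2 A) (B d) ≤ 2 A^(1-α) B^α d^α`. -/
def HolStmt : Prop :=
  ∀ (p : S4) (β : ℝ → ℝ), Bump β → ∃ C : ℝ, 0 ≤ C ∧ ∀ α s : ℝ, 0 ≤ α → α ≤ 1 → 0 ≤ s → s < 1 →
    HC α (C * (1 - s) ^ (-((1 + α) / 2))) (Fb β p s)

/-- NEG. Let `P`, `S` be a maximum and a minimum point of `Q`, `u = x_5`, `q = Q - 2 - x_5`. From
`dd Q P = 0`: `ee 4 - P_5 P = -∇q(P)`, so `P_5 ≥ 1 - δ`, and
`dd Q x v = P_5 <P - <P,x> x, v> + (dd q x v - dd q P (v - <x,v> x) ...)`, error at most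
`C δ |x - P| |v|`; in the same way with `S`, `S_5 ≤ -1 + δ`. The field
`X = (1 - <S,x>)(P - <P,x> x) - (1 - <P,x>)(S - <S,x> x) = cf (P - S) A x`,
`A x = <P,x> S - <S,x> P`, satisfies `dd Q x (X x) ≥ c (1 - <P,x>)(1 - <S,x>)`: use the first
formula for `<P, x> ≥ 0` and the second for `<P, x> ≤ 0`. Then `two_field`
(`Helper59_Vir.Two`) with both fields equal to this one; `Q > 0`. -/
def NegStmt : Prop :=
  ∃ δ : ℝ, 0 < δ ∧ ∀ Q : S4 → ℝ, Sm Q → HC 1 δ (fun x => Q x - (2 + (x : E5) 4)) →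
    ¬ IsPaneitzCurvature Q

/-! ### E. the theorem -/

/-- ASM. Uses COR, ZOM, HOL, L2B, MOA, MOS, MOI, FIN. Scaling to `Q p = 6`
(`IsPaneitzCurvature (c Q)` iff `IsPaneitzCurvature Q` for `c > 0`). For `s` near `1` let
`e = (1 - s)^(1 - 2η)`, `4 η < 1 - α`, `Q₁ = Q + e Fb β p s`. Then
`Q₁ ∘ mob (s p) = Q ∘ mob (s p) + e β <p, ·>` and `N2 (Q ∘ mob (s p) - 6) ≤ C (1 - s)^(1 - η) ≤
(c₀/2) e`. If `N2 (Q₂ - Q₁) ≤ δ` then `N2 (Q₂ ∘ mob (s p) - 6 - e β) ≤ c₀ e`: COR, MOI, FIN. Support: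
`Fb ≠ 0` implies `<p, z> > (s - 2/5)/(1 - 2 s/5) → 1`. -/
def AsmStmt : Prop :=
  ∀ (Q : S4 → ℝ) (p : S4) (U : Set S4) (α ε : ℝ), Sm Q → Crit Q p → 0 < Q p → U ∈ 𝓝 p →
    0 ≤ α → α < 1 → 0 < ε → ∃ Q₁ : S4 → ℝ, Sm Q₁ ∧ (∀ x, x ∉ U → Q₁ x = Q x) ∧
      HC α ε (fun x => Q₁ x - Q x) ∧ ∃ δ : ℝ, 0 < δ ∧ ∀ Q₂ : S4 → ℝ, Sm Q₂ →
        N2 (fun x => Q₂ x - Q₁ x) < δ → IsPaneitzCurvature Q₂

end Pool.Agent.FLX
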